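import Pool.Agent.MP_d9582c_gt.H34.Cone

/-!
Piecewise constant families are functions on finitely many copies of the group.
-/

open scoped Manifold ContDiff Topology ENNReal Pointwise
open MeasureTheory Set Filter

noncomputable section

namespace Pool.Agent.MP_d9582c_gt.H48

open H34 H34.Geo

universe u v

variable {n : ℕ} {M : Type u} [TopologicalSpace M] [ChartedSpace (E n) M]

/-- A constant as a form of degree zero. -/
def cst (n : ℕ) (z : ℂ) : Alt n 0 := ContinuousAlternatingMap.constOfIsEmpty ℝ (E n) (Fin 0) z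

@[simp] lemma cst_apply (z : ℂ) (v : Fin 0 → E n) : cst n z v = z := rfl

lemma cst_eq (α : Alt n 0) : cst n (α ![]) = α := by
  ext v; rw [cst_apply, Subsingleton.elim v ![]]

lemma alt0_ext {α β : Alt n 0} (h : α ![] = β ![]) : α = β := by rw [← cst_eq α, h, cst_eq]

lemma pull_cst {X : Type*} [TopologicalSpace X] [ChartedSpace (E n) X] (ψ : X → M) (z : ℂ) :
    pull ψ (fun _ : M => cst n z) = fun _ => cst n z := by
  funext x; ext v; rfl

lemma smoothAt_cst (z : ℂ) (x : M) : SmoothAt (fun _ : M => cst n z) x := by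
  rw [SmoothAt, pull_cst]; exact contDiffAt_const

lemma extD_cst (z : ℂ) (x : M) : extD (fun _ : M => cst n z) x = 0 := by
  simp only [extD, pull_cst, extDeriv]
  rw [show fderiv ℝ (fun _ : E n => cst n z) (chartAt (E n) x x) = 0 from fderiv_const_apply _]
  rw [← ContinuousAlternatingMap.alternatizeUncurryFinCLM_apply, map_zero]
  rfl

variable {G : Type v} [Group G] [MulAction G M] [IsManifold 𝓘(ℝ, E n) ∞ M] [MeasurableSpace M]

omit [MeasurableSpace M] in
lemma nsq_cst (g : RMetric n M) (x : M) (z : ℂ) : nsq g x (cst n z) = ‖z‖ ^ 2 := by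
  simp [nsq]

variable (X : Geo n G M)

/-- The local index of the least member. -/
def base (s : Finset (Fin X.m)) (x : M) : G :=
  if h : s.Nonempty then X.idx (s.min' h) x else 1

/-- The combinatorial type of a point. -/
def typ (s : Finset (Fin X.m)) (x : M) : Finset (Fin X.m) × (Fin X.m → G) :=
  (s, fun b => if b ∈ s then (base X s x)⁻¹ * X.idx b x else 1)

variable {X} {s : Finset (Fin X.m)} {x y : M}

lemma base_eq (h : s.Nonempty) (x : M) : base X s x = X.idx (s.min' h) x := dif_pos h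

lemma base_smul (h : s.Nonempty) (hx : x ∈ X.Vs s) (γ : G) :
    base X s (γ • x) = γ * base X s x := by
  rw [base_eq h, base_eq h, idx_smul (hx _ (s.min'_mem h))]

lemma base_one (h : s.Nonempty) (hx : x ∈ X.U (s.min' h)) : base X s x = 1 := by
  rw [base_eq h]; exact idx_eq (by simpa using hx)

lemma typ_smul (hx : x ∈ X.Vs s) (γ : G) : typ X s (γ • x) = typ X s x := by
  refine Prod.ext rfl (funext fun b => ?_)
  by_cases hb : b ∈ s
  · simp [typ, hb, base_smul ⟨b, hb⟩ hx, idx_smul (hx b hb), mul_assoc]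
  · simp [typ, hb]

lemma base_congr (h : ∀ a ∈ s, X.idx a x = X.idx a y) : base X s x = base X s y := by
  unfold base; split_ifs with hs
  · exact h _ (s.min'_mem hs)
  · rfl

lemma typ_congr (h : ∀ a ∈ s, X.idx a x = X.idx a y) : typ X s x = typ X s y := by
  refine Prod.ext rfl (funext fun b => ?_)
  by_cases hb : b ∈ s
  · simp [typ, hb, base_congr h, h b hb]
  · simp [typ, hb]

lemma idx_eventually_all (hx : x ∈ X.Vs s) :
    ∀ᶠ y in 𝓝 x, y ∈ X.Vs s ∧ ∀ a ∈ s, X.idx a y = X.idx a x := by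
  filter_upwards [(isOpen_Vs s).mem_nhds hx, (Filter.eventually_all_finset s).2
    fun a ha => idx_eventually (hx a ha)] with y h1 h2 using ⟨h1, fun a ha => (h2 a ha).2⟩

variable (X) in
/-- A list of all types with representatives. -/
structure Types where
  r : ℕ
  t : Fin r → Finset (Fin X.m)
  ht : ∀ j, (t j).Nonempty
  pt : Fin r → M
  mem_U : ∀ j, pt j ∈ X.U ((t j).min' (ht j))
  mem_Vs : ∀ j, pt j ∈ X.Vs (t j)
  inj : ∀ i j, typ X (t i) (pt i) = typ X (t j) (pt j) → i = j
  surj : ∀ s : Finset (Fin X.m), s.Nonempty → ∀ x ∈ X.Vs s, ∃ j, typ X (t j) (pt j) = typ X s x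

variable (X) in
lemma exists_types : Nonempty (Types X) := by
  classical
  let J : Set (Finset (Fin X.m) × (Fin X.m → G)) :=
    {τ | ∃ (h : τ.1.Nonempty) (x : M), x ∈ X.U (τ.1.min' h) ∧ x ∈ X.Vs τ.1 ∧ typ X τ.1 x = τ}
  have hJ : J.Finite := by
    refine ((Set.finite_univ (α := Finset (Fin X.m))).prod
      (Set.Finite.pi' (t := fun _ : Fin X.m => (X.S : Set G)) fun _ => X.S.finite_toSet)).subset ?_
    rintro τ ⟨h, x, -, hx, e⟩
    refine ⟨trivial, fun b => ?_⟩
    rw [← e]
    by_cases hb : b ∈ τ.1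
    · simp only [typ, hb, if_true, base_eq h]
      exact idx_adj (hx _ (τ.1.min'_mem h)) (hx b hb)
    · simpa [typ, hb] using X.one_mem
  have := hJ.to_subtype
  obtain ⟨r, ⟨e⟩⟩ := Finite.exists_equiv_fin J
  have h := fun j => (e.symm j).2
  choose ht pt h1 h2 h3 using h
  refine ⟨⟨r, fun j => (e.symm j).1.1, ht, pt, h1, h2, fun i j hij => ?_, fun s hs x hx => ?_⟩⟩
  · rw [h3, h3] at hij
    exact e.symm.injective (Subtype.ext hij)
  · refine ⟨e ⟨typ X s x, hs, (base X s x)⁻¹ • x, ?_, smul_mem_Vs.2 hx, typ_smul hx _⟩, ?_⟩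
    · rw [base_eq hs]; exact idx_spec (hx _ (s.min'_mem hs))
    · rw [h3, Equiv.symm_apply_apply]

namespace Types

variable (T : Types X)

/-- The type number `j`. -/
def ty (j : Fin T.r) : Finset (Fin X.m) × (Fin X.m → G) := typ X (T.t j) (T.pt j)

open Classical in
/-- The value of the piecewise constant function given by `c`. -/
def val (c : Fin T.r → G → ℂ) (s : Finset (Fin X.m)) (x : M) : ℂ :=
  ∑ j, if x ∈ X.Vs s ∧ T.ty j = typ X s x then c j (base X s x) else 0

variable {T} {c : Fin T.r → G → ℂ} {j : Fin T.r}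

lemma t_eq (h : T.ty j = typ X s x) : T.t j = s := congrArg Prod.fst h

lemma val_eq (hx : x ∈ X.Vs s) (h : T.ty j = typ X s x) : T.val c s x = c j (base X s x) := by
  rw [val, Finset.sum_eq_single j, if_pos ⟨hx, h⟩]
  · exact fun i _ hi => if_neg fun h' => hi (T.inj _ _ (h'.2.trans h.symm))
  · simp

lemma val_not (hx : x ∉ X.Vs s) : T.val c s x = 0 :=
  Finset.sum_eq_zero fun _ _ => if_neg fun h => hx h.1

lemma val_empty (x : M) : T.val c ∅ x = 0 :=
  Finset.sum_eq_zero fun j _ => if_neg fun h => (T.ht j).ne_empty (t_eq h.2)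

lemma val_congr (hx : x ∈ X.Vs s) (hy : y ∈ X.Vs s) (h : ∀ a ∈ s, X.idx a x = X.idx a y) :
    T.val c s x = T.val c s y := by
  rw [val, val, typ_congr h, base_congr h, eq_true hx, eq_true hy]

lemma val_smul (hx : x ∈ X.Vs s) (γ : G) :
    T.val c s (γ • x) = T.val (fun j y => c j (γ * y)) s x := by
  rcases s.eq_empty_or_nonempty with rfl | hs
  · rw [val_empty, val_empty]
  · rw [val, val, typ_smul hx, base_smul hs hx, eq_true hx, eq_true (smul_mem_Vs.2 hx)]

lemma val_eventually (hx : x ∈ X.Vs s) :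
    (fun y => cst n (T.val c s y)) =ᶠ[𝓝 x] fun _ => cst n (T.val c s x) := by
  filter_upwards [idx_eventually_all hx] with y hy
  rw [val_congr hy.1 hx hy.2]

variable (T)

/-- The family given by `c`. -/
def raw (c : Fin T.r → G → ℂ) (s : Finset (Fin X.m)) : (p : ℕ) → M → Alt n p
  | 0 => fun x => cst n (T.val c s x)
  | _ + 1 => 0

lemma raw_mem (c : Fin T.r → G → ℂ) (s : Finset (Fin X.m)) (p : ℕ) (x : M) :
    (x ∈ X.Vs s → SmoothAt (T.raw c s p) x) ∧ (x ∉ X.Vs s → T.raw c s p x = 0) := by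
  cases p with
  | zero => exact ⟨fun hx => (smoothAt_cst _ x).congr (val_eventually hx),
      fun hx => alt0_ext (val_not hx)⟩
  | succ p => exact ⟨fun _ => smoothAt_zero x, fun _ => rfl⟩

/-- The linear map from functions to families. -/
def I : (Fin T.r → G → ℂ) →ₗ[ℂ] X.Sec where
  toFun c := Sec.mk (T.raw c) (T.raw_mem c)
  map_add' c c' := Sec.ext fun s p x _ => by
    cases p with
    | zero =>
      refine alt0_ext ?_
      change T.val (c + c') s x = T.val c s x + T.val c' s x
      simp only [val, ← Finset.sum_add_distrib]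
      exact Finset.sum_congr rfl fun j _ => by split_ifs <;> simp
    | succ p => exact (add_zero _).symm
  map_smul' z c := Sec.ext fun s p x _ => by
    cases p with
    | zero =>
      refine alt0_ext ?_
      change T.val (z • c) s x = z * T.val c s x
      simp only [val, Finset.mul_sum]
      exact Finset.sum_congr rfl fun j _ => by split_ifs <;> simp
    | succ p => exact (alt_smul_zero z).symm

lemma I_zero (c : Fin T.r → G → ℂ) (s : Finset (Fin X.m)) :
    (T.I c).v s 0 = fun x => cst n (T.val c s x) := rfl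

lemma I_succ (c : Fin T.r → G → ℂ) (s : Finset (Fin X.m)) (p : ℕ) : (T.I c).v s (p + 1) = 0 := rfl

lemma I_pt (c : Fin T.r → G → ℂ) (j : Fin T.r) (y : G) :
    (T.I c).v (T.t j) 0 (y • T.pt j) ![] = c j y := by
  change T.val c _ _ = _
  rw [val_smul (T.mem_Vs j), val_eq (T.mem_Vs j) rfl, base_one (T.ht j) (T.mem_U j), mul_one]

lemma I_ev {τ : X.Sec} (h : PC τ) : T.I (fun j y => τ.v (T.t j) 0 (y • T.pt j) ![]) = τ := by
  refine Sec.ext fun s p x hx => ?_
  cases p with
  | succ p => rw [I_succ, h.1]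
  | zero =>
    refine alt0_ext ?_
    rw [I_zero, cst_apply]
    rcases s.eq_empty_or_nonempty with rfl | hs
    · rw [val_empty, h.2.1]; rfl
    obtain ⟨j, hj⟩ := T.surj s hs x hx
    rw [val_eq hx hj]
    obtain rfl : T.t j = s := t_eq hj
    refine h.2.2 _ _ (smul_mem_Vs.2 (T.mem_Vs j)) _ hx fun a ha => ?_
    have := congrFun (congrArg Prod.snd hj) a
    simp only [typ, ha, if_true, base_one (T.ht j) (T.mem_U j), inv_one, one_mul] at this
    rw [idx_smul (T.mem_Vs j a ha), this, mul_inv_cancel_left]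

lemma pc_I (c : Fin T.r → G → ℂ) : PC (T.I c) :=
  ⟨fun _ _ => rfl, funext fun x => alt0_ext (val_empty x), fun _ _ hx _ hy h => val_congr hx hy h⟩

lemma dd_I (c : Fin T.r → G → ℂ) : X.dd (T.I c) = 0 := by
  refine Sec.ext fun s p x hx => ?_
  cases p with
  | zero => rfl
  | succ p =>
    rw [dd_succ _ _ hx]
    cases p with
    | zero => rw [I_zero, extD_congr (val_eventually hx), extD_cst]; exact alt_smul_zero _
    | succ p => rw [I_succ, extD_zero]; exact alt_smul_zero _

lemma I_tr (c : Fin T.r → G → ℂ) (γ : G) : T.I (fun j y => c j (γ⁻¹ * y)) = X.trS γ (T.I c) := by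
  refine Sec.ext fun s p x hx => ?_
  cases p with
  | zero => exact alt0_ext (val_smul hx γ⁻¹).symm
  | succ p => rfl

end Types

lemma pc_neg_del {σ : X.Sec} (h : PC σ) : PC (-X.del σ) := by
  refine ⟨fun s p => funext fun x => ?_, funext fun x => ?_, fun s x hx y hy hxy => ?_⟩
  · by_cases hx : x ∈ X.Vs s
    · simp [del_apply _ _ hx, h.1]
    · exact Sec.zero _ _ hx
  · simp [del_apply _ _ (mem_Vs_empty x)]
  · simp only [Sec.neg_val, del_apply _ _ hx, del_apply _ _ hy, ContinuousAlternatingMap.neg_apply,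
      ContinuousAlternatingMap.sum_apply, ContinuousAlternatingMap.smul_apply]
    congr 1
    refine Finset.sum_congr rfl fun a _ => ?_
    rw [h.2.2 _ x (Vs_mono (s.erase_subset a) hx) y (Vs_mono (s.erase_subset a) hy)
      fun b hb => hxy b (s.erase_subset a hb)]

/-- Pairing of the group ring with a function. -/
def pair (f : G → ℂ) : MonoidAlgebra ℚ G →+ ℂ where
  toFun a := a.coeff.sum fun x q => (q : ℂ) * f x
  map_zero' := by simp
  map_add' a b := by
    rw [MonoidAlgebra.coeff_add]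
    exact Finsupp.sum_add_index' (by simp) (by simp [add_mul])

omit [Group G] in
lemma pair_single (f : G → ℂ) (x : G) (q : ℚ) : pair f (MonoidAlgebra.single x q) = q * f x := by
  change ((Finsupp.single x q).sum fun x q => (q : ℂ) * f x) = _
  exact Finsupp.sum_single_index (by simp)

namespace Types

variable (T : Types X)

open Classical in
/-- The matrix of the differential. -/
def mat : Matrix (Fin T.r) (Fin T.r) (MonoidAlgebra ℚ G) := fun i j =>
  ∑ a ∈ T.t j, if T.ty i = typ X ((T.t j).erase a) (T.pt j) then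
    MonoidAlgebra.single (base X ((T.t j).erase a) (T.pt j))⁻¹
      (-(-1) ^ ((T.t j).filter (· < a)).card) else 0

lemma I_mat (c : Fin T.r → G → ℂ) :
    T.I (fun j y => ∑ i, (T.mat i j).coeff.sum fun x a => (a : ℂ) * c i (y * x⁻¹)) =
      -X.del (T.I c) := by
  rw [← T.I_ev (pc_neg_del (T.pc_I c))]
  congr 1
  funext j y
  have hx : y • T.pt j ∈ X.Vs (T.t j) := smul_mem_Vs.2 (T.mem_Vs j)
  simp only [Sec.neg_val, del_apply _ _ hx, ContinuousAlternatingMap.neg_apply,
    ContinuousAlternatingMap.sum_apply, ContinuousAlternatingMap.smul_apply, I_zero, cst_apply]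
  change ∑ i, pair (fun x => c i (y * x⁻¹)) (T.mat i j) = _
  simp only [mat, map_sum]
  rw [Finset.sum_comm, ← Finset.sum_neg_distrib]
  refine Finset.sum_congr rfl fun a _ => ?_
  have h1 := Vs_mono ((T.t j).erase_subset a) (T.mem_Vs j)
  rw [val_smul h1, val, Finset.smul_sum, ← Finset.sum_neg_distrib]
  refine Finset.sum_congr rfl fun i _ => ?_
  by_cases h : T.ty i = typ X ((T.t j).erase a) (T.pt j)
  · rw [if_pos h, if_pos ⟨h1, h⟩, pair_single]
    simp [sgn]
  · rw [if_neg h, if_neg fun h' => h h'.2]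
    simp

variable [BorelSpace M] [Countable G]

lemma nrmS_I (D : FD X) (w : Fin T.r → G ⧸ D.N → ℂ) :
    nrmS D (T.I fun j y => w j y) ≤
      ENNReal.ofReal (∑ a, (X.μ (X.U a)).toReal) * ∑ j, ∑' q, ‖w j q‖ₑ ^ 2 := by
  have hinv : InvS D (T.I fun j y => w j y) := fun γ hγ => by
    rw [← I_tr]
    congr 1
    funext j y
    congr 1
    refine QuotientGroup.eq.2 ?_
    simpa [mul_assoc] using D.normal.conj_mem γ hγ y⁻¹
  refine iSup₂_le fun s p => ?_
  cases p with
  | succ p => simp [I_succ, FD.nrm]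
  | zero =>
    rcases s.eq_empty_or_nonempty with rfl | hs
    · simp [(T.pc_I _).2.1, FD.nrm]
    rw [nrm_eq_tsum hinv (s.min'_mem hs), ← Summable.tsum_finsetSum fun _ _ => ENNReal.summable,
      ← ENNReal.tsum_mul_left]
    refine ENNReal.tsum_le_tsum fun q => ?_
    refine (setLIntegral_mono' (X.isOpen_U _).measurableSet
      (g := fun _ => ∑ j, ‖w j q‖ₑ ^ 2) fun x hx => ?_).trans ?_
    · rw [← I_tr, I_zero, nsq_cst]
      by_cases hx' : x ∈ X.Vs s
      · obtain ⟨j, hj⟩ := T.surj s hs x hx'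
        rw [val_eq hx' hj, base_one hs hx, inv_inv, mul_one, QuotientGroup.out_eq',
          ENNReal.ofReal_pow (norm_nonneg _), ofReal_norm]
        exact Finset.single_le_sum (f := fun j => ‖w j q‖ₑ ^ 2) (fun _ _ => zero_le)
          (Finset.mem_univ j)
      · simp [val_not hx']
    · rw [setLIntegral_const, mul_comm]
      gcongr
      rw [← ENNReal.ofReal_toReal (X.μ_fin (s.min' hs))]
      exact ENNReal.ofReal_le_ofReal (Finset.single_le_sum
        (f := fun a => (X.μ (X.U a)).toReal) (fun _ _ => ENNReal.toReal_nonneg) (Finset.mem_univ _))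

end Types

theorem cochain : CochainStmt.{u, v} := by
  intro n M _ _ G _ _ _ _ _ _ X
  obtain ⟨T⟩ := exists_types X
  exact ⟨T.r, T.mat, T.t, T.ht, T.pt, T.I, _, T.mem_U, T.I_pt, fun _ => T.I_ev,
    fun c => ⟨T.pc_I c, T.dd_I c⟩, T.I_tr, T.I_mat, T.nrmS_I⟩

end Pool.Agent.MP_d9582c_gt.H48
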